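import Pool.Agent.X112.GS.LrcFin

/-!
Correlations of the normalised gaps between the zeros of zeta, on the Riemann hypothesis: the gaps
are negatively correlated on the average, their correlations almost cancel the variance, and the
correlations decay slowly, with the constant predicted by the GUE.

Idea of the proof.  The second moment `V (r)` of `x̃_{n+r} - x̃_n - r` over `n ≤ N` equals
`r C_N (0) + 2 ∑ (r - j) C_N (j)` up to a boundary term that is negligible because on the Riemann
hypothesis the gaps up to `N` are `O (log N)`.  One has `V (r) ≤ C (1 + log r)²` (moments of gaps and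
of the number of zeros in short intervals) and `V (r) ≥ (1/π² - ε) log r` (from the Gaussian limit law
of `x̃_{n+r} - x̃_n - r`, truncating the square).  For (2) one compares two scales: `V (r) - (r/R) V (R)`
is `-2` times a sum of `w_j C_N (j)` over `j < R` with weights `0 ≤ w_j ≤ j`, and one takes
`r = R / (1 + log R)²`.
-/

set_option autoImplicit false

open Filter

namespace Pool.Agent.Results.MP_21f43f_nt.LongRangeCorrelations

/-- multiplicity of `s` as a zero of the Riemann zeta function (order of vanishing at `s`) -/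
noncomputable def zmult (s : ℂ) : ℕ := analyticOrderNatAt riemannZeta s

/-- the number of nontrivial zeros of `ζ` with ordinate in `(0, t]`, with multiplicity -/
noncomputable def NZ (t : ℝ) : ℕ :=
  ∑ᶠ s ∈ {s : ℂ | riemannZeta s = 0 ∧ 0 < s.re ∧ s.re < 1 ∧ 0 < s.im ∧ s.im ≤ t}, zmult s

/-- for `n ≥ 1`: the `n`-th positive ordinate `γ n` of a nontrivial zero of `ζ`, the ordinates being
listed in nondecreasing order and repeated according to multiplicity -/
noncomputable def γ (n : ℕ) : ℝ := sInf {t : ℝ | n ≤ NZ t}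

/-- the normalised ordinate `γ_n log γ_n / 2π` -/
noncomputable def nord (n : ℕ) : ℝ := γ n * Real.log (γ n) / (2 * Real.pi)

/-- the normalised gap `δ_n` between the `n`-th and the `(n+1)`-st zero -/
noncomputable def δ (n : ℕ) : ℝ := nord (n + 1) - nord n

/-- the correlation of the gaps `δ_1, …, δ_N` at distance `j` -/
noncomputable def Cor (N j : ℕ) : ℝ := (1 / N : ℝ) * ∑ n ∈ Finset.Icc 1 N, (δ n - 1) * (δ (n + j) - 1)

/-- On the Riemann hypothesis:
(1) the Cesàro sums `Cor N 0 + 2 ∑ (1 - j/r) Cor N j` (over `1 ≤ j < r`) are at most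
`C (1 + log r)² / r` for every `r ≥ 1` and all large `N`, and for every `ε > 0`, all large `r` and all
`N` large in terms of `r` they are at least `(1/π² - ε) (log r) / r`;
(2) for every `ε > 0`, all large `R` and all `N` large in terms of `R` the sum of `j max (-Cor N j, 0)`
over `1 ≤ j < R` is at least `(1/(2π²) - ε) log R`;
(3) for all large `r` and all `N` large in terms of `r`: `Cor N 0 ≥ 1/25`, and the sum of
`(1 - j/r) Cor N j` over `1 ≤ j < r` is at most `-1/50`. -/
theorem result (RH : RiemannHypothesis) :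
    (∃ C : ℝ, 0 < C ∧ ∀ r : ℕ, 1 ≤ r → ∀ᶠ N : ℕ in atTop,
      Cor N 0 + 2 * ∑ j ∈ Finset.Ico 1 r, (1 - (j : ℝ) / r) * Cor N j ≤
        C * (1 + Real.log r) ^ 2 / r) ∧
    (∀ ε : ℝ, 0 < ε → ∀ᶠ r : ℕ in atTop, ∀ᶠ N : ℕ in atTop,
      (1 / Real.pi ^ 2 - ε) * Real.log r / r ≤
        Cor N 0 + 2 * ∑ j ∈ Finset.Ico 1 r, (1 - (j : ℝ) / r) * Cor N j) ∧
    (∀ ε : ℝ, 0 < ε → ∀ᶠ R : ℕ in atTop, ∀ᶠ N : ℕ in atTop,
      (1 / (2 * Real.pi ^ 2) - ε) * Real.log R ≤
        ∑ j ∈ Finset.Ico 1 R, (j : ℝ) * max (-Cor N j) 0) ∧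
    (∀ᶠ r : ℕ in atTop, ∀ᶠ N : ℕ in atTop,
      1 / 25 ≤ Cor N 0 ∧ ∑ j ∈ Finset.Ico 1 r, (1 - (j : ℝ) / r) * Cor N j ≤ -(1 / 50)) := by
  have e : ∀ N j : ℕ, Cor N j = (1 / N : ℝ) * Pool.Agent.X112.GS.cc Pool.Agent.X112.GS.ee N j :=
    fun N j => rfl
  simp only [e]
  exact ⟨Pool.Agent.X112.GS.part1u RH, Pool.Agent.X112.GS.part1l RH, Pool.Agent.X112.GS.part2 RH,
    Pool.Agent.X112.GS.part3 RH⟩

end Pool.Agent.Results.MP_21f43f_nt.LongRangeCorrelations
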