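import Pool.Agent.X112.GS.Fin
import Pool.Agent.X112.GS.Nc

/-!
A normalised gap between zeros of zeta is not a monotone function of an earlier one, not even
approximately.  Unconditional.

Idea of the proof.  Suppose that `|δ_{n+k} - f (δ_n)| < ε` for most `n`, where `f` is nondecreasing.
Along the progression `n, n + k, n + 2 k, …` the gaps then follow an orbit of the monotone map `f` up
to small errors, and up to a rare set of places.  An orbit of a monotone map is monotone, so on long
blocks the number of crossings of a level by the gaps is bounded; as the gaps are positive with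
bounded mean, it follows that `δ_{n+k}` is close to `δ_n` for most `n`.  This is impossible, because
the sums of `r` consecutive gaps would then be within `O(1)` of a multiple of `r` on long blocks,
whereas by the central limit theorem (Selberg, Fujii) their deviation from `r` is of order
`√(log r)` for most `n`.  For a nonincreasing Lipschitz `f` one uses the second iterate.
-/

set_option autoImplicit false

open Filter

namespace Pool.Agent.Results.MP_21f43f_nt.NoMonotonePrediction

/-- multiplicity of `s` as a zero of the Riemann zeta function (order of vanishing at `s`) -/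
noncomputable def zmult (s : ℂ) : ℕ := analyticOrderNatAt riemannZeta s

/-- the number of nontrivial zeros of `ζ` with ordinate in `(0, t]`, with multiplicity -/
noncomputable def NZ (t : ℝ) : ℕ :=
  ∑ᶠ s ∈ {s : ℂ | riemannZeta s = 0 ∧ 0 < s.re ∧ s.re < 1 ∧ 0 < s.im ∧ s.im ≤ t}, zmult s

/-- for `n ≥ 1`: the `n`-th positive ordinate `γ n` of a nontrivial zero of `ζ`, the ordinates being
listed in nondecreasing order and repeated according to multiplicity -/
noncomputable def γ (n : ℕ) : ℝ := sInf {t : ℝ | n ≤ NZ t}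

/-- the normalised ordinate `γ_n log γ_n / 2π` -/
noncomputable def nord (n : ℕ) : ℝ := γ n * Real.log (γ n) / (2 * Real.pi)

/-- the normalised gap `δ_n` between the `n`-th and the `(n+1)`-st zero -/
noncomputable def δ (n : ℕ) : ℝ := nord (n + 1) - nord n

/-- Unconditionally, with `γ n` the ordinates of all the nontrivial zeros in the upper half-plane:
for every `k ≥ 1` (1) there is `ε > 0` such that for all large `N` and every nondecreasing function
`f`, at least `ε N` of the `n ≤ N` satisfy `|δ (n + k) - f (δ n)| ≥ ε`; (2) for every `Λ ≥ 0` there is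
`ε > 0` such that for all large `N` and every nonincreasing function `f` with Lipschitz constant `Λ`,
at least `ε N` of the `n ≤ N` satisfy `|δ (n + k) - f (δ n)| ≥ ε`. -/
theorem result (k : ℕ) (hk : 1 ≤ k) :
    (∃ ε : ℝ, 0 < ε ∧ ∀ᶠ N : ℕ in atTop, ∀ f : ℝ → ℝ, Monotone f →
      ε * N ≤ ({n : ℕ | 1 ≤ n ∧ n ≤ N ∧ ε ≤ |δ (n + k) - f (δ n)|}.ncard : ℝ)) ∧
    (∀ Λ : ℝ, 0 ≤ Λ → ∃ ε : ℝ, 0 < ε ∧ ∀ᶠ N : ℕ in atTop, ∀ f : ℝ → ℝ, Antitone f →
      (∀ s t : ℝ, |f s - f t| ≤ Λ * |s - t|) →
      ε * N ≤ ({n : ℕ | 1 ≤ n ∧ n ≤ N ∧ ε ≤ |δ (n + k) - f (δ n)|}.ncard : ℝ)) := by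
  classical
  have e2 : ∀ n, δ n = Pool.Agent.X112.GS.inc Pool.Agent.X112.GS.yy n := fun n => rfl
  simp only [e2]
  refine ⟨?_, fun Λ hΛ => ?_⟩
  · obtain ⟨ε, hε, h⟩ := Pool.Agent.X112.GS.mono k hk
    refine ⟨ε, hε, ?_⟩
    filter_upwards [h] with N hN f hf
    rw [Pool.Agent.X112.GS.nc]
    exact hN f hf
  · obtain ⟨ε, hε, h⟩ := Pool.Agent.X112.GS.anti k hk Λ hΛ
    refine ⟨ε, hε, ?_⟩
    filter_upwards [h] with N hN f hf hf2
    rw [Pool.Agent.X112.GS.nc]
    exact hN f hf hf2

end Pool.Agent.Results.MP_21f43f_nt.NoMonotonePrediction
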