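import Pool.Agent.X112.GS.Fin2
import Pool.Agent.X112.GS.Nc

/-!
The sequence of normalised ordinates of the zeros of zeta has no smooth approximation: it cannot be
approximated within a bounded distance by a sequence whose second differences are small at most
places.  Equivalently, the spacings are not a small perturbation of a constant plus the differences
of a sequence that is bounded at a positive proportion of the places.  Unconditional.

Idea of the proof.  By the central limit theorem for the sums of `r` consecutive spacings (Selberg,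
Fujii), `x̃_{n+r} - x̃_n - r` is of order `√(log r)` for most `n`; in particular it is rarely within
`O(K)` of any fixed window as soon as `log r` is large compared with `K²`.  Suppose that `z` has small
second differences at most places and is within `K` of the normalised ordinates at more than `η N`
places.  On most blocks `z` is almost linear.  Translating by the multiples of two well chosen
numbers of different orders of magnitude, one finds by pigeonhole on a positive proportion of the
blocks several places in the same arithmetic progression at which `z` is close to the ordinates;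
the law of large numbers forces the slope of `z` to be close to `1`, and a comparison of two scales
gives a place with `|x̃_{n+r} - x̃_n - r| = O(K)`, which contradicts the first remark.
-/

set_option autoImplicit false

open Filter

namespace Pool.Agent.Results.MP_21f43f_nt.NoSmoothApproximation

/-- multiplicity of `s` as a zero of the Riemann zeta function (order of vanishing at `s`) -/
noncomputable def zmult (s : ℂ) : ℕ := analyticOrderNatAt riemannZeta s

/-- the number of nontrivial zeros of `ζ` with ordinate in `(0, t]`, with multiplicity -/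
noncomputable def NZ (t : ℝ) : ℕ :=
  ∑ᶠ s ∈ {s : ℂ | riemannZeta s = 0 ∧ 0 < s.re ∧ s.re < 1 ∧ 0 < s.im ∧ s.im ≤ t}, zmult s

/-- for `n ≥ 1`: the `n`-th positive ordinate `γ n` of a nontrivial zero of `ζ`, the ordinates being
listed in nondecreasing order and repeated according to multiplicity -/
noncomputable def γ (n : ℕ) : ℝ := sInf {t : ℝ | n ≤ NZ t}

/-- the normalised ordinate `γ_n log γ_n / 2π` -/
noncomputable def nord (n : ℕ) : ℝ := γ n * Real.log (γ n) / (2 * Real.pi)

/-- the normalised gap `δ_n` between the `n`-th and the `(n+1)`-st zero -/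
noncomputable def δ (n : ℕ) : ℝ := nord (n + 1) - nord n

/-- Unconditionally, with `γ n` the ordinates of all the nontrivial zeros in the upper half-plane:
(1) for every `Q ≥ 1` and `η > 0` there is `C` such that for all `K ≥ 1` and all large `N`: every
sequence `z` for which `|z (n+2Q) - 2 z (n+Q) + z n| > exp (-C K²)` holds for at most
`exp (-C K²) N` of the `n ≤ N` is within `K` of the normalised ordinate `nord n` for at most `η N` of
the `n ≤ N`.
(2) For every `η > 0` there is `C` such that for all `K ≥ 1` and all large `N`: if `b` is a number and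
`x` is a sequence such that `δ n` differs from `b + x (n+1) - x n` by at least `exp (-C K²)` for fewer
than `exp (-C K²) N` of the `n ≤ N`, then `|x n| ≤ K` for at most `η N` of the `n ≤ N`.
(3) The size `exp (-C K²)` in (1) is of the correct order: for every `η > 0` there is `c > 0` such
that for all large `K` and all `N` large in terms of `K` there is a sequence `z` whose second
differences vanish for all but at most `exp (-c K²) N` of the `n ≤ N` and which is within `K` of
`nord n` for at least `(1 - η) N` of the `n ≤ N`. -/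
theorem result :
    (∀ Q : ℕ, 1 ≤ Q → ∀ η : ℝ, 0 < η → ∃ C : ℝ, 0 < C ∧ ∀ K : ℝ, 1 ≤ K →
      ∀ᶠ N : ℕ in atTop, ∀ z : ℕ → ℝ,
        ({n : ℕ | 1 ≤ n ∧ n ≤ N ∧ Real.exp (-C * K ^ 2) <
          |z (n + 2 * Q) - 2 * z (n + Q) + z n|}.ncard : ℝ) ≤ Real.exp (-C * K ^ 2) * N →
        ({n : ℕ | 1 ≤ n ∧ n ≤ N ∧ |nord n - z n| ≤ K}.ncard : ℝ) ≤ η * N) ∧
    (∀ η : ℝ, 0 < η → ∃ C : ℝ, 0 < C ∧ ∀ K : ℝ, 1 ≤ K →
      ∀ᶠ N : ℕ in atTop, ∀ (x : ℕ → ℝ) (b : ℝ),
        ({n : ℕ | 1 ≤ n ∧ n ≤ N ∧ Real.exp (-C * K ^ 2) ≤
          |δ n - b - (x (n + 1) - x n)|}.ncard : ℝ) < Real.exp (-C * K ^ 2) * N →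
        ({n : ℕ | 1 ≤ n ∧ n ≤ N ∧ |x n| ≤ K}.ncard : ℝ) ≤ η * N) ∧
    (∀ η : ℝ, 0 < η → ∃ c : ℝ, 0 < c ∧ ∀ᶠ K : ℝ in atTop, ∀ᶠ N : ℕ in atTop, ∃ z : ℕ → ℝ,
      ({n : ℕ | 1 ≤ n ∧ n ≤ N ∧ z (n + 2) - 2 * z (n + 1) + z n ≠ 0}.ncard : ℝ) ≤
        Real.exp (-c * K ^ 2) * N ∧
      (1 - η) * N ≤ ({n : ℕ | 1 ≤ n ∧ n ≤ N ∧ |nord n - z n| ≤ K}.ncard : ℝ)) := by
  classical
  have e1 : ∀ n, nord n = Pool.Agent.X112.GS.yy n := fun n => rfl
  have e2 : ∀ n, δ n = Pool.Agent.X112.GS.inc Pool.Agent.X112.GS.yy n := fun n => rfl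
  simp only [e1, e2]
  refine ⟨fun Q hQ η hη => ?_, fun η hη => ?_, fun η hη => ?_⟩
  · obtain ⟨C, hC, h⟩ := Pool.Agent.X112.GS.smooth_quant Q hQ η hη
    refine ⟨C, hC, fun K hK => ?_⟩
    filter_upwards [h K hK] with N hN z
    rw [Pool.Agent.X112.GS.nc, Pool.Agent.X112.GS.nc]
    exact hN z
  · obtain ⟨C, hC, h⟩ := Pool.Agent.X112.GS.coboundary_quant η hη
    refine ⟨C, hC, fun K hK => ?_⟩
    filter_upwards [h K hK] with N hN x b
    rw [Pool.Agent.X112.GS.nc, Pool.Agent.X112.GS.nc]
    exact hN x b
  · obtain ⟨c, hc, h⟩ := Pool.Agent.X112.GS.sharp_yy η hη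
    refine ⟨c, hc, ?_⟩
    filter_upwards [h] with K hK
    filter_upwards [hK] with N hN
    obtain ⟨z, h1, h2⟩ := hN
    refine ⟨z, ?_, ?_⟩
    · rw [Pool.Agent.X112.GS.nc]
      exact h1
    · rw [Pool.Agent.X112.GS.nc]
      exact h2

end Pool.Agent.Results.MP_21f43f_nt.NoSmoothApproximation
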