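import Pool.Agent.X112.WE.H1

/-!
The blocks of `L` consecutive normalised gaps between zeros of zeta cannot be described by
`exp (L ^ κ)` patterns, even if large errors are allowed.  Unconditional.

Idea of the proof.  The vector of the normalised distances between the `n`-th zero and the next `L`
zeros is for most `n` close to a vector of real parts of prime polynomials, of length
`T ^ (1 / (4 m))` with `m = L ^ κ'`: the mean square of the error at each position is
`O (log m) = O (κ' log L)`, whereas the variance is `log L / π ^ 2`.  In a basis in which the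
covariance matrix is diagonal the mean value over the height `t` of `∏ (3/4 + cos (√s Z_k(t)) / 4)`,
`Z_k` the coordinates, can be computed with `m` moments (Taylor expansion of
`exp (i ∑ ζ_k Z_k)`, with error `O ((e/4) ^ m)`, and the mean value theorem for Dirichlet
polynomials); this shows that the set of `t` for which the vector is in a given ball of radius
`(c L log L) ^ (1/2)` has density at most `exp (-c' m)`, and one may take a union over
`exp (L ^ κ)` balls, `κ < κ'`.
-/

set_option autoImplicit false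

open Filter

namespace Pool.Agent.Results.MP_21f43f_nt.StretchedComplexity

/-- multiplicity of `s` as a zero of the Riemann zeta function (order of vanishing at `s`) -/
noncomputable def zmult (s : ℂ) : ℕ := analyticOrderNatAt riemannZeta s

/-- the number of nontrivial zeros of `ζ` with ordinate in `(0, t]`, with multiplicity -/
noncomputable def NZ (t : ℝ) : ℕ :=
  ∑ᶠ s ∈ {s : ℂ | riemannZeta s = 0 ∧ 0 < s.re ∧ s.re < 1 ∧ 0 < s.im ∧ s.im ≤ t}, zmult s

/-- for `n ≥ 1`: the `n`-th positive ordinate `γ n` of a nontrivial zero of `ζ`, the ordinates being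
listed in nondecreasing order and repeated according to multiplicity -/
noncomputable def γ (n : ℕ) : ℝ := sInf {t : ℝ | n ≤ NZ t}

/-- the normalised ordinate `γ_n log γ_n / 2π` -/
noncomputable def nord (n : ℕ) : ℝ := γ n * Real.log (γ n) / (2 * Real.pi)

/-- the normalised gap `δ_n` between the `n`-th and the `(n+1)`-st zero -/
noncomputable def δ (n : ℕ) : ℝ := nord (n + 1) - nord n

/-- Unconditionally, with `γ n` the ordinates of all the nontrivial zeros in the upper half-plane: for
every `θ > 0` there is `κ > 0` such that for all large `L` and all large `N` (in terms of `θ, L`) and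
every choice of `K ≤ exp (L ^ κ)` real vectors `v 0, …, v (K-1)` of length `L`

(1) at most `θ N` of the `n ≤ N` are such that for one of the vectors the partial sums of the errors
satisfy `∑_(j < L) (∑_(i ≤ j) (δ (n + i) - v_i))^2 ≤ (1 / 5000) L log L`;

(2) in particular at most `θ N` of the `n ≤ N` are such that `(δ n, …, δ (n + L - 1))` is within `1/L`
of one of the vectors in the sup norm. -/
theorem result (θ : ℝ) (hθ : 0 < θ) : ∃ κ : ℝ, 0 < κ ∧
    ∀ᶠ L : ℕ in atTop, ∀ᶠ N : ℕ in atTop, ∀ (K : ℕ) (v : Fin K → ℕ → ℝ), (K : ℝ) ≤ Real.exp ((L : ℝ) ^ κ) →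
      ({n : ℕ | 1 ≤ n ∧ n ≤ N ∧ ∃ q, ∑ j ∈ Finset.range L,
        (∑ i ∈ Finset.range (j + 1), (δ (n + i) - v q i)) ^ 2 ≤ 1 / 5000 * (L * Real.log L)}.ncard : ℝ) ≤ θ * N ∧
      ({n : ℕ | 1 ≤ n ∧ n ≤ N ∧ ∃ q, ∀ i < L, |δ (n + i) - v q i| ≤ 1 / L}.ncard : ℝ) ≤ θ * N := by
  obtain ⟨κ, hκ, h⟩ := Pool.Agent.X112.WE.pat_fin θ hθ
  refine ⟨κ, hκ, ?_⟩
  have hlog : Tendsto (fun L : ℕ => Real.log (L : ℝ)) atTop atTop :=
    Real.tendsto_log_atTop.comp tendsto_natCast_atTop_atTop
  filter_upwards [h, hlog.eventually_ge_atTop 5000, eventually_ge_atTop 1] with L h hlL hL1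
  have hL1' : (1 : ℝ) ≤ L := by exact_mod_cast hL1
  filter_upwards [h] with N h K v hK
  have hsum : ∀ n j : ℕ, ∑ i ∈ Finset.range (j + 1), δ (n + i) = nord (n + (j + 1)) - nord n := by
    intro n j
    exact Finset.sum_range_sub (fun i => nord (n + i)) (j + 1)
  have h1 : ({n : ℕ | 1 ≤ n ∧ n ≤ N ∧ ∃ q, ∑ j ∈ Finset.range L,
        (∑ i ∈ Finset.range (j + 1), (δ (n + i) - v q i)) ^ 2 ≤ 1 / 5000 * (L * Real.log L)}.ncard : ℝ) ≤ θ * N := by
    have h2 := h K (fun q j => ∑ i ∈ Finset.range (j + 1), v q i) hK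
    simp only [Finset.sum_sub_distrib, hsum]
    exact h2
  refine ⟨h1, le_trans ?_ h1⟩
  have hfin : {n : ℕ | 1 ≤ n ∧ n ≤ N ∧ ∃ q, ∑ j ∈ Finset.range L,
        (∑ i ∈ Finset.range (j + 1), (δ (n + i) - v q i)) ^ 2 ≤ 1 / 5000 * (L * Real.log L)}.Finite :=
    (Set.finite_Icc 1 N).subset fun n hn => ⟨hn.1, hn.2.1⟩
  have hsub : {n : ℕ | 1 ≤ n ∧ n ≤ N ∧ ∃ q, ∀ i < L, |δ (n + i) - v q i| ≤ 1 / L} ⊆
      {n : ℕ | 1 ≤ n ∧ n ≤ N ∧ ∃ q, ∑ j ∈ Finset.range L,
        (∑ i ∈ Finset.range (j + 1), (δ (n + i) - v q i)) ^ 2 ≤ 1 / 5000 * (L * Real.log L)} := by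
    rintro n ⟨h2, h3, q, hq⟩
    refine ⟨h2, h3, q, ?_⟩
    have e1 : ∀ j ∈ Finset.range L, (∑ i ∈ Finset.range (j + 1), (δ (n + i) - v q i)) ^ 2 ≤ 1 := by
      intro j hj
      rw [Finset.mem_range] at hj
      rw [← sq_abs]
      apply pow_le_one₀ (abs_nonneg _)
      refine (Finset.abs_sum_le_sum_abs _ _).trans ?_
      have e2 : ∀ i ∈ Finset.range (j + 1), |δ (n + i) - v q i| ≤ 1 / L := by
        intro i hi
        rw [Finset.mem_range] at hi
        exact hq i (by omega)
      refine (Finset.sum_le_sum e2).trans ?_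
      rw [Finset.sum_const, Finset.card_range, nsmul_eq_mul, mul_one_div, div_le_one (by linarith)]
      exact_mod_cast hj
    refine (Finset.sum_le_sum e1).trans ?_
    rw [Finset.sum_const, Finset.card_range, nsmul_eq_mul, mul_one]
    nlinarith
  exact_mod_cast Set.ncard_le_ncard hsub hfin

end Pool.Agent.Results.MP_21f43f_nt.StretchedComplexity
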